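import Mathlib

/-!
# The record-indicator harmonic series has no density continuous on `(1, ∞)`
-/

open MeasureTheory ProbabilityTheory Filter Topology
open scoped ENNReal

namespace Pool.Agent.Results.MP_37d573_pr.NoContinuousDensity

/-! ### Weighted sums of independent events -/

section sums

variable {Ω : Type*} [mΩ : MeasurableSpace Ω]

/-- the weight `1 / (n + 1)` -/
noncomputable def w (n : ℕ) : ℝ≥0∞ := ENNReal.ofReal (1 / ((n : ℝ) + 1))

/-- `∑_{n ∈ K} 1_{A_n} / (n + 1)` -/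
noncomputable def T (A : ℕ → Set Ω) (K : Set ℕ) (ω : Ω) : ℝ≥0∞ :=
  ∑' n, K.indicator (fun n => (A n).indicator (fun _ => w n) ω) n

lemma w_ne_top (n : ℕ) : w n ≠ ∞ := ENNReal.ofReal_ne_top

lemma measurable_T_sub (A : ℕ → Set Ω) (K : Set ℕ) :
    Measurable[⨆ n ∈ K, MeasurableSpace.generateFrom {A n}] (T A K) := by
  unfold T
  let m0 : MeasurableSpace Ω := ⨆ n ∈ K, MeasurableSpace.generateFrom {A n}
  refine @Measurable.ennreal_tsum Ω m0 ℕ _ _ fun n => ?_
  by_cases hn : n ∈ K
  · simp only [Set.indicator_of_mem hn]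
    refine Measurable.indicator measurable_const ?_
    have h1 : MeasurableSpace.generateFrom {A n} ≤ ⨆ n ∈ K, MeasurableSpace.generateFrom {A n} :=
      le_iSup₂_of_le n hn le_rfl
    exact h1 _ (MeasurableSpace.measurableSet_generateFrom (Set.mem_singleton _))
  · simp only [Set.indicator_of_notMem hn]
    exact measurable_const

lemma gen_le {A : ℕ → Set Ω} (hA : ∀ n, MeasurableSet (A n)) (n : ℕ) :
    MeasurableSpace.generateFrom {A n} ≤ mΩ :=
  MeasurableSpace.generateFrom_le fun t ht => by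
    rw [Set.mem_singleton_iff.1 ht]; exact hA n

lemma measurable_T {A : ℕ → Set Ω} (hA : ∀ n, MeasurableSet (A n)) (K : Set ℕ) :
    Measurable (T A K) :=
  (measurable_T_sub A K).mono (iSup₂_le fun n _ => gen_le hA n) le_rfl

lemma T_split (A : ℕ → Set Ω) {K : Set ℕ} {n : ℕ} (hn : n ∈ K) (ω : Ω) :
    T A K ω = (A n).indicator (fun _ => w n) ω + T A (K \ {n}) ω := by
  classical
  unfold T
  have h := ENNReal.tsum_eq_add_tsum_ite
    (f := fun m => K.indicator (fun n => (A n).indicator (fun _ => w n) ω) m) n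
  rw [h, Set.indicator_of_mem hn]
  congr 1
  refine tsum_congr fun m => ?_
  by_cases hm : m = n
  · simp [hm]
  · by_cases hmK : m ∈ K
    · have h1 : m ∈ K \ {n} := ⟨hmK, by simpa using hm⟩
      rw [if_neg hm, Set.indicator_of_mem hmK, Set.indicator_of_mem h1]
    · have h1 : m ∉ K \ {n} := fun h => hmK h.1
      rw [if_neg hm, Set.indicator_of_notMem hmK, Set.indicator_of_notMem h1]

variable {P : Measure Ω}

lemma indep_event {A : ℕ → Set Ω} (hA : ∀ n, MeasurableSet (A n)) (hI : iIndepSet A P)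
    {K : Set ℕ} {n : ℕ} (hn : n ∉ K) {B : Set ℝ≥0∞} (hB : MeasurableSet B) :
    P (A n ∩ {ω | T A K ω ∈ B}) = P (A n) * P {ω | T A K ω ∈ B} := by
  have h := indep_iSup_of_disjoint (m := fun n => MeasurableSpace.generateFrom {A n}) (μ := P)
    (fun n => gen_le hA n) hI (S := {n}) (T := K) (by simpa using hn)
  rw [Indep_iff] at h
  refine h (A n) _ ?_ ?_
  · have h1 : MeasurableSpace.generateFrom {A n} ≤
        ⨆ m ∈ ({n} : Set ℕ), MeasurableSpace.generateFrom {A m} :=
      le_iSup₂_of_le n (Set.mem_singleton n) le_rfl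
    exact h1 _ (MeasurableSpace.measurableSet_generateFrom (Set.mem_singleton _))
  · exact measurable_T_sub A K hB

lemma indep_event_compl {A : ℕ → Set Ω} (hA : ∀ n, MeasurableSet (A n)) (hI : iIndepSet A P)
    {K : Set ℕ} {n : ℕ} (hn : n ∉ K) {B : Set ℝ≥0∞} (hB : MeasurableSet B) :
    P ((A n)ᶜ ∩ {ω | T A K ω ∈ B}) = P (A n)ᶜ * P {ω | T A K ω ∈ B} := by
  have h := indep_iSup_of_disjoint (m := fun n => MeasurableSpace.generateFrom {A n}) (μ := P)
    (fun n => gen_le hA n) hI (S := {n}) (T := K) (by simpa using hn)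
  rw [Indep_iff] at h
  refine h (A n)ᶜ _ ?_ ?_
  · have h1 : MeasurableSpace.generateFrom {A n} ≤
        ⨆ m ∈ ({n} : Set ℕ), MeasurableSpace.generateFrom {A m} :=
      le_iSup₂_of_le n (Set.mem_singleton n) le_rfl
    exact h1 _ (MeasurableSpace.measurableSet_generateFrom (Set.mem_singleton _)).compl
  · exact measurable_T_sub A K hB

/-- conditioning on one event -/
lemma T_law {A : ℕ → Set Ω} (hA : ∀ n, MeasurableSet (A n)) (hI : iIndepSet A P)
    {K : Set ℕ} {n : ℕ} (hn : n ∈ K) {B : Set ℝ≥0∞} (hB : MeasurableSet B) :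
    P {ω | T A K ω ∈ B} = P (A n) * P {ω | w n + T A (K \ {n}) ω ∈ B} +
      P (A n)ᶜ * P {ω | T A (K \ {n}) ω ∈ B} := by
  have hn' : n ∉ K \ {n} := by simp
  have hB' : MeasurableSet {x | w n + x ∈ B} := (measurable_const_add (w n)) hB
  have h1 := indep_event hA hI hn' hB'
  have h2 := indep_event_compl hA hI hn' hB
  simp only [Set.mem_ofPred_eq] at h1 h2
  rw [← h1, ← h2, ← measure_inter_add_sdiff {ω | T A K ω ∈ B} (hA n)]
  congr 1
  · congr 1
    ext ω
    simp only [Set.mem_inter_iff, Set.mem_ofPred_eq]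
    constructor
    · rintro ⟨h, h'⟩
      refine ⟨h', ?_⟩
      rwa [T_split A hn, Set.indicator_of_mem h'] at h
    · rintro ⟨h, h'⟩
      refine ⟨?_, h⟩
      rwa [T_split A hn, Set.indicator_of_mem h]
  · congr 1
    ext ω
    simp only [Set.mem_inter_iff, Set.mem_ofPred_eq, Set.mem_sdiff, Set.mem_compl_iff]
    constructor
    · rintro ⟨h, h'⟩
      refine ⟨h', ?_⟩
      rwa [T_split A hn, Set.indicator_of_notMem h', zero_add] at h
    · rintro ⟨h, h'⟩
      refine ⟨?_, h⟩
      rwa [T_split A hn, Set.indicator_of_notMem h, zero_add]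

/-- the size bias inequality -/
lemma size_bias {A : ℕ → Set Ω} (hA : ∀ n, MeasurableSet (A n)) (hI : iIndepSet A P)
    {K : Set ℕ} {c : ℕ → ℝ≥0∞}
    (hc : ∀ n ∈ K, w n * P (A n) ≤ c n * P (A n)ᶜ)
    {B : Set ℝ≥0∞} (hB : MeasurableSet B) (x : ℝ≥0∞) (hx : ∀ y ∈ B, x ≤ y) :
    x * P {ω | T A K ω ∈ B} ≤
      ∑' n, K.indicator (fun n => c n * P {ω | w n + T A K ω ∈ B}) n := by
  have hTm := measurable_T hA K
  have hBm : MeasurableSet {ω | T A K ω ∈ B} := hTm hB
  calc x * P {ω | T A K ω ∈ B} = ∫⁻ _ in {ω | T A K ω ∈ B}, x ∂P := by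
        rw [setLIntegral_const]
    _ ≤ ∫⁻ ω in {ω | T A K ω ∈ B}, T A K ω ∂P :=
        setLIntegral_mono' hBm fun ω hω => hx _ hω
    _ = ∑' n, ∫⁻ ω in {ω | T A K ω ∈ B},
          K.indicator (fun n => (A n).indicator (fun _ => w n) ω) n ∂P := by
        unfold T
        rw [lintegral_tsum]
        intro n
        by_cases hn : n ∈ K
        · simp only [Set.indicator_of_mem hn]
          exact (measurable_const.indicator (hA n)).aemeasurable
        · simp only [Set.indicator_of_notMem hn]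
          exact aemeasurable_const
    _ ≤ _ := by
        refine ENNReal.tsum_le_tsum fun n => ?_
        by_cases hn : n ∈ K
        · simp only [Set.indicator_of_mem hn]
          rw [lintegral_indicator_const (hA n), Measure.restrict_apply (hA n)]
          have hn' : n ∉ K \ {n} := by simp
          have hB' : MeasurableSet {x | w n + x ∈ B} := (measurable_const_add (w n)) hB
          have h1 := indep_event hA hI hn' hB'
          have h2 := indep_event_compl hA hI hn' hB'
          simp only [Set.mem_ofPred_eq] at h1 h2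
          have h3 : A n ∩ {ω | T A K ω ∈ B} = A n ∩ {ω | w n + T A (K \ {n}) ω ∈ B} := by
            ext ω
            simp only [Set.mem_inter_iff, Set.mem_ofPred_eq]
            refine and_congr_right fun h => ?_
            rw [T_split A hn, Set.indicator_of_mem h]
          have h4 : P ((A n)ᶜ ∩ {ω | w n + T A (K \ {n}) ω ∈ B}) ≤
              P {ω | w n + T A K ω ∈ B} := by
            refine measure_mono ?_
            rintro ω ⟨h, h'⟩
            simp only [Set.mem_ofPred_eq] at h' ⊢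
            rwa [T_split A hn, Set.indicator_of_notMem h, zero_add]
          rw [h3, h1]
          calc w n * (P (A n) * P {ω | w n + T A (K \ {n}) ω ∈ B})
              = (w n * P (A n)) * P {ω | w n + T A (K \ {n}) ω ∈ B} := by ring
            _ ≤ (c n * P (A n)ᶜ) * P {ω | w n + T A (K \ {n}) ω ∈ B} := by
                exact mul_le_mul_left (hc n hn) _
            _ = c n * P ((A n)ᶜ ∩ {ω | w n + T A (K \ {n}) ω ∈ B}) := by rw [h2]; ring
            _ ≤ _ := by gcongr
        · simp only [Set.indicator_of_notMem hn, lintegral_zero]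
          exact zero_le

end sums

/-! ### The record indicators -/

section records

variable {Ω : Type*} [MeasurableSpace Ω] {P : Measure Ω} [IsProbabilityMeasure P]
  {A : ℕ → Set Ω}

lemma tsum_tele (m : ℕ) (hm : 1 ≤ m) :
    ∑' n, (Set.Ici m).indicator (fun n : ℕ => ENNReal.ofReal (1 / ((n : ℝ) * (n + 1)))) n ≤
      ENNReal.ofReal (1 / m) := by
  have hm0 : (0 : ℝ) < m := by exact_mod_cast hm
  refine ENNReal.tsum_le_of_sum_range_le fun N => ?_
  have key : ∀ N : ℕ, ∑ n ∈ Finset.range N, (Set.Ici m).indicator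
      (fun n : ℕ => ENNReal.ofReal (1 / ((n : ℝ) * (n + 1)))) n ≤
      ENNReal.ofReal (1 / (m : ℝ) - 1 / ((max m N : ℕ) : ℝ)) := by
    intro N
    induction N with
    | zero => simp
    | succ N ih =>
      rw [Finset.sum_range_succ]
      by_cases hN : m ≤ N
      · rw [Set.indicator_of_mem (Set.mem_Ici.2 hN)]
        have e1 : max m N = N := max_eq_right hN
        have e2 : max m (N + 1) = N + 1 := max_eq_right (by omega)
        rw [e1] at ih
        rw [e2]
        have hN0 : (0 : ℝ) < N := lt_of_lt_of_le hm0 (by exact_mod_cast hN)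
        have h1 : (0 : ℝ) ≤ 1 / (m : ℝ) - 1 / (N : ℝ) := by
          rw [sub_nonneg]
          exact one_div_le_one_div_of_le hm0 (by exact_mod_cast hN)
        refine (add_le_add_left ih _).trans ?_
        rw [← ENNReal.ofReal_add h1 (by positivity)]
        apply ENNReal.ofReal_le_ofReal
        push_cast
        apply le_of_eq
        field_simp
        ring
      · rw [Set.indicator_of_notMem (by simpa using hN), add_zero]
        have e1 : max m N = m := max_eq_left (by omega)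
        have e2 : max m (N + 1) = m := max_eq_left (by omega)
        rw [e1] at ih
        rw [e2]
        exact ih
  refine (key N).trans (ENNReal.ofReal_le_ofReal ?_)
  have : (0 : ℝ) ≤ 1 / ((max m N : ℕ) : ℝ) := by positivity
  linarith

/-- the probability of `T_K ∈ [a, b)` -/
noncomputable def Q (P : Measure Ω) (A : ℕ → Set Ω) (K : Set ℕ) (a b : ℝ) : ℝ :=
  (P {ω | T A K ω ∈ Set.Ico (ENNReal.ofReal a) (ENNReal.ofReal b)}).toReal

lemma Q_nonneg (K : Set ℕ) (a b : ℝ) : 0 ≤ Q P A K a b := ENNReal.toReal_nonneg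

lemma shift_iff (n : ℕ) {a b : ℝ} (ha : 1 / ((n : ℝ) + 1) ≤ a) (hab : a ≤ b) (t : ℝ≥0∞) :
    w n + t ∈ Set.Ico (ENNReal.ofReal a) (ENNReal.ofReal b) ↔
      t ∈ Set.Ico (ENNReal.ofReal (a - 1 / ((n : ℝ) + 1)))
        (ENNReal.ofReal (b - 1 / ((n : ℝ) + 1))) := by
  have e : ∀ c : ℝ, 1 / ((n : ℝ) + 1) ≤ c →
      ENNReal.ofReal c = w n + ENNReal.ofReal (c - 1 / ((n : ℝ) + 1)) := by
    intro c hc
    rw [w, ← ENNReal.ofReal_add (by positivity) (by linarith)]
    congr 1
    ring
  rw [e a ha, e b (ha.trans hab), Set.mem_Ico, Set.mem_Ico,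
    ENNReal.add_le_add_iff_left (w_ne_top n), ENNReal.add_lt_add_iff_left (w_ne_top n)]

variable (hA : ∀ n, MeasurableSet (A n)) (hI : iIndepSet A P)
  (hP : ∀ n, P (A n) = ENNReal.ofReal (1 / ((n : ℝ) + 1)))

include hA hP in
lemma prob_compl (n : ℕ) : P (A n)ᶜ = ENNReal.ofReal ((n : ℝ) / (n + 1)) := by
  rw [prob_compl_eq_one_sub (hA n), hP, ← ENNReal.ofReal_one, ← ENNReal.ofReal_sub _ (by positivity)]
  congr 1
  field_simp
  ring

include hA hI hP in
lemma Q_two (a b : ℝ) (ha : 1 / 2 ≤ a) (hab : a ≤ b) :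
    Q P A (Set.Ici 1) a b = 1 / 2 * (Q P A (Set.Ici 2) a b +
      Q P A (Set.Ici 2) (a - 1 / 2) (b - 1 / 2)) := by
  unfold Q
  have hset : (Set.Ici 1 : Set ℕ) \ {1} = Set.Ici 2 := by
    ext x; simp only [Set.mem_sdiff, Set.mem_Ici, Set.mem_singleton_iff]; omega
  rw [T_law hA hI (K := Set.Ici 1) (n := 1) (by simp) measurableSet_Ico, hset, hP,
    prob_compl hA hP]
  have hs : {ω | w 1 + T A (Set.Ici 2) ω ∈ Set.Ico (ENNReal.ofReal a) (ENNReal.ofReal b)} =
      {ω | T A (Set.Ici 2) ω ∈ Set.Ico (ENNReal.ofReal (a - 1 / 2))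
        (ENNReal.ofReal (b - 1 / 2))} := by
    ext ω
    have h := shift_iff 1 (a := a) (b := b) (by norm_num; linarith) hab (T A (Set.Ici 2) ω)
    norm_num at h ⊢
    exact h
  rw [hs, ENNReal.toReal_add (by finiteness) (by finiteness), ENNReal.toReal_mul,
    ENNReal.toReal_mul, ENNReal.toReal_ofReal (by positivity),
    ENNReal.toReal_ofReal (by positivity)]
  norm_num
  ring

include hA hI hP in
/-- the left neighbourhood version at the point `1/2` -/
lemma Q_two' (ε : ℝ) (hε : 0 < ε) :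
    Q P A (Set.Ici 1) (1 / 2 - ε) (1 / 2) = 1 / 2 * (Q P A (Set.Ici 2) (1 / 2 - ε) (1 / 2) +
      Q P A (Set.Ici 2) (0 - ε) 0) := by
  unfold Q
  have hset : (Set.Ici 1 : Set ℕ) \ {1} = Set.Ici 2 := by
    ext x; simp only [Set.mem_sdiff, Set.mem_Ici, Set.mem_singleton_iff]; omega
  rw [T_law hA hI (K := Set.Ici 1) (n := 1) (by simp) measurableSet_Ico, hset, hP,
    prob_compl hA hP]
  have hs : {ω | w 1 + T A (Set.Ici 2) ω ∈ Set.Ico (ENNReal.ofReal (1 / 2 - ε))
      (ENNReal.ofReal (1 / 2))} = ∅ := by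
    ext ω
    simp only [Set.mem_ofPred_eq, Set.mem_Ico, Set.mem_empty_iff_false, iff_false, not_and, not_lt]
    intro _
    have : w 1 = ENNReal.ofReal (1 / 2) := by rw [w]; norm_num
    rw [this]
    exact le_self_add
  have hs' : {ω | T A (Set.Ici 2) ω ∈ Set.Ico (ENNReal.ofReal (0 - ε)) (ENNReal.ofReal 0)} = ∅ := by
    ext ω
    simp
  rw [hs, hs', ENNReal.toReal_add (by finiteness) (by finiteness), ENNReal.toReal_mul,
    ENNReal.toReal_mul, ENNReal.toReal_ofReal (by positivity),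
    ENNReal.toReal_ofReal (by positivity)]
  norm_num

include hA hP in
lemma mean_tail (m : ℕ) (hm : 1 ≤ m) :
    ∫⁻ ω, T A (Set.Ici m) ω ∂P ≤ ENNReal.ofReal (1 / m) := by
  unfold T
  rw [lintegral_tsum]
  · refine le_trans (ENNReal.tsum_le_tsum fun n => ?_) (tsum_tele m hm)
    by_cases hn : m ≤ n
    · simp only [Set.indicator_of_mem (Set.mem_Ici.2 hn)]
      rw [lintegral_indicator_const (hA n), hP, w, ← ENNReal.ofReal_mul (by positivity)]
      apply ENNReal.ofReal_le_ofReal
      have h0 : (0 : ℝ) < n := by exact_mod_cast (by omega : 0 < n)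
      rw [div_mul_div_comm, one_mul]
      apply one_div_le_one_div_of_le (by positivity)
      nlinarith
    · have hn' : n ∉ Set.Ici m := by simpa using hn
      simp only [Set.indicator_of_notMem hn', lintegral_zero]
      exact zero_le
  · intro n
    by_cases hn : n ∈ Set.Ici m
    · simp only [Set.indicator_of_mem hn]
      exact (measurable_const.indicator (hA n)).aemeasurable
    · simp only [Set.indicator_of_notMem hn]
      exact aemeasurable_const

include hA hI hP in
lemma small_ball (ε : ℝ) (hε : 0 < ε) (hε1 : ε ≤ 1) : ε / 3 ≤ Q P A (Set.Ici 2) 0 ε := by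
  have hstep : ∀ m : ℕ, 2 ≤ m → ENNReal.ofReal (2 / m) *
      P {ω | T A (Set.Ici m) ω ∈ Set.Iio (ENNReal.ofReal ε)} ≤
      P {ω | T A (Set.Ici 2) ω ∈ Set.Iio (ENNReal.ofReal ε)} := by
    intro m hm
    induction m, hm using Nat.le_induction with
    | base => norm_num
    | succ m hm ih =>
      refine le_trans ?_ ih
      have hset : (Set.Ici m : Set ℕ) \ {m} = Set.Ici (m + 1) := by
        ext x; simp only [Set.mem_sdiff, Set.mem_Ici, Set.mem_singleton_iff]; omega
      rw [T_law hA hI (K := Set.Ici m) (n := m) (by simp) measurableSet_Iio, hset,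
        prob_compl hA hP, mul_add]
      refine le_trans ?_ le_add_self
      rw [← mul_assoc, ← ENNReal.ofReal_mul (by positivity)]
      apply le_of_eq
      congr 2
      have : (0 : ℝ) < m := by exact_mod_cast (by omega : 0 < m)
      push_cast
      field_simp
  set m : ℕ := ⌈2 / ε⌉₊ with hm
  have hm2 : 2 / ε ≤ m := Nat.le_ceil _
  have h2ε : 2 ≤ 2 / ε := by
    rw [le_div_iff₀ hε]; linarith
  have hm2' : 2 ≤ m := by
    have : (2 : ℝ) ≤ m := h2ε.trans hm2
    exact_mod_cast this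
  have hm0 : (0 : ℝ) < m := by exact_mod_cast (by omega : 0 < m)
  have hm3 : (m : ℝ) ≤ 3 / ε := by
    have := Nat.ceil_lt_add_one (show 0 ≤ 2 / ε by positivity)
    have h1 : 1 ≤ 1 / ε := by rw [le_div_iff₀ hε]; linarith
    have h3 : (3 : ℝ) / ε = 2 / ε + 1 / ε := by ring
    rw [h3]
    linarith
  -- Markov
  have hmar := mul_meas_ge_le_lintegral (μ := P) (measurable_T hA (Set.Ici m)) (ENNReal.ofReal ε)
  have hmean := mean_tail hA hP m (by omega)
  have hge : P {ω | ENNReal.ofReal ε ≤ T A (Set.Ici m) ω} ≤ ENNReal.ofReal (1 / 2) := by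
    have h1 : ENNReal.ofReal ε * P {ω | ENNReal.ofReal ε ≤ T A (Set.Ici m) ω} ≤
        ENNReal.ofReal ε * ENNReal.ofReal (1 / 2) := by
      refine (hmar.trans hmean).trans ?_
      rw [← ENNReal.ofReal_mul hε.le]
      apply ENNReal.ofReal_le_ofReal
      rw [div_le_iff₀ hm0]
      rw [div_le_iff₀ hε] at hm2
      linarith
    exact (ENNReal.mul_le_mul_iff_right (by positivity) ENNReal.ofReal_ne_top).1 h1
  have hlt : ENNReal.ofReal (1 / 2) ≤
      P {ω | T A (Set.Ici m) ω ∈ Set.Iio (ENNReal.ofReal ε)} := by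
    have hmeas : MeasurableSet {ω | ENNReal.ofReal ε ≤ T A (Set.Ici m) ω} :=
      measurableSet_le measurable_const (measurable_T hA _)
    have hc : {ω | T A (Set.Ici m) ω ∈ Set.Iio (ENNReal.ofReal ε)} =
        {ω | ENNReal.ofReal ε ≤ T A (Set.Ici m) ω}ᶜ := by
      ext ω; simp
    rw [hc, prob_compl_eq_one_sub hmeas]
    calc ENNReal.ofReal (1 / 2) = 1 - ENNReal.ofReal (1 / 2) := by
          rw [← ENNReal.ofReal_one, ← ENNReal.ofReal_sub _ (by norm_num)]
          norm_num
      _ ≤ _ := tsub_le_tsub_left hge _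
  have hfin := hstep m hm2'
  have hL : ENNReal.ofReal (ε / 3) ≤ P {ω | T A (Set.Ici 2) ω ∈ Set.Iio (ENNReal.ofReal ε)} := by
    refine le_trans ?_ ((mul_le_mul_right hlt _).trans hfin)
    rw [← ENNReal.ofReal_mul (by positivity)]
    apply ENNReal.ofReal_le_ofReal
    rw [le_div_iff₀ hε] at hm3
    rw [div_mul_div_comm, div_le_div_iff₀ (by norm_num) (by positivity)]
    nlinarith
  unfold Q
  have hset : {ω | T A (Set.Ici 2) ω ∈ Set.Ico (ENNReal.ofReal 0) (ENNReal.ofReal ε)} =
      {ω | T A (Set.Ici 2) ω ∈ Set.Iio (ENNReal.ofReal ε)} := by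
    ext ω; simp
  rw [hset]
  have := ENNReal.toReal_mono (by finiteness) hL
  rwa [ENNReal.toReal_ofReal (by positivity)] at this

include hA hI hP in
/-- the size bias inequality on intervals, under uniform upper bounds -/
lemma Q_size_bias (x ε M : ℝ) (hε : 0 < ε) (hx : 1 / 2 ≤ x - ε) (hM : 0 ≤ M)
    (h : ∀ n : ℕ, 1 ≤ n →
      Q P A (Set.Ici 1) (x - ε - 1 / ((n : ℝ) + 1)) (x - 1 / ((n : ℝ) + 1)) ≤ M) :
    (x - ε) * Q P A (Set.Ici 1) (x - ε) x ≤ M := by
  have h1 := size_bias hA hI (K := Set.Ici 1)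
    (c := fun n => ENNReal.ofReal (1 / ((n : ℝ) * (n + 1)))) (fun n hn => by
      rw [hP, prob_compl hA hP, w, ← ENNReal.ofReal_mul (by positivity),
        ← ENNReal.ofReal_mul (by positivity)]
      apply ENNReal.ofReal_le_ofReal
      have hn1 : 1 ≤ n := hn
      have : (0 : ℝ) < n := by exact_mod_cast hn1
      apply le_of_eq
      field_simp)
    (B := Set.Ico (ENNReal.ofReal (x - ε)) (ENNReal.ofReal x)) measurableSet_Ico
    (ENNReal.ofReal (x - ε)) (fun y hy => hy.1)
  have h2 : ∑' n, (Set.Ici 1).indicator (fun n : ℕ => ENNReal.ofReal (1 / ((n : ℝ) * (n + 1))) *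
      P {ω | w n + T A (Set.Ici 1) ω ∈ Set.Ico (ENNReal.ofReal (x - ε)) (ENNReal.ofReal x)}) n ≤
      ENNReal.ofReal M := by
    calc _ ≤ ∑' n, (Set.Ici 1).indicator
          (fun n : ℕ => ENNReal.ofReal (1 / ((n : ℝ) * (n + 1)))) n * ENNReal.ofReal M := by
          refine ENNReal.tsum_le_tsum fun n => ?_
          by_cases hn : n ∈ Set.Ici 1
          · rw [Set.indicator_of_mem hn, Set.indicator_of_mem hn]
            gcongr
            have hn1 : 1 ≤ n := hn
            have hn2 : (1 : ℝ) ≤ n := by exact_mod_cast hn1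
            have hle : 1 / ((n : ℝ) + 1) ≤ x - ε := by
              refine le_trans ?_ hx
              apply one_div_le_one_div_of_le (by norm_num)
              linarith
            have hs : {ω | w n + T A (Set.Ici 1) ω ∈
                Set.Ico (ENNReal.ofReal (x - ε)) (ENNReal.ofReal x)} =
                {ω | T A (Set.Ici 1) ω ∈ Set.Ico (ENNReal.ofReal (x - ε - 1 / ((n : ℝ) + 1)))
                  (ENNReal.ofReal (x - 1 / ((n : ℝ) + 1)))} := by
              ext ω
              exact shift_iff n hle (by linarith) _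
            rw [hs, ← ENNReal.ofReal_toReal (measure_ne_top P _)]
            exact ENNReal.ofReal_le_ofReal (h n hn1)
          · rw [Set.indicator_of_notMem hn, Set.indicator_of_notMem hn, zero_mul]
      _ = (∑' n, (Set.Ici 1).indicator
          (fun n : ℕ => ENNReal.ofReal (1 / ((n : ℝ) * (n + 1)))) n) * ENNReal.ofReal M :=
          ENNReal.tsum_mul_right
      _ ≤ ENNReal.ofReal (1 / (1 : ℕ)) * ENNReal.ofReal M := by
          gcongr
          exact tsum_tele 1 le_rfl
      _ = ENNReal.ofReal M := by simp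
  have h3 := ENNReal.toReal_mono ENNReal.ofReal_ne_top (h1.trans h2)
  rw [ENNReal.toReal_mul, ENNReal.toReal_ofReal (by linarith), ENNReal.toReal_ofReal hM] at h3
  exact h3

end records

/-! ### The analytic part -/

lemma eventually_interval {g : ℝ → ℝ} {x : ℝ} (hx : ContinuousAt g x) {η : ℝ} (hη : 0 < η) :
    ∀ᶠ ε in 𝓝[>] (0 : ℝ), ∀ y, |y - x| ≤ ε → |g y - g x| ≤ η := by
  obtain ⟨δ, hδ, h⟩ := Metric.continuousAt_iff.1 hx η hη
  filter_upwards [Ioo_mem_nhdsGT hδ] with ε hε y hy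
  have := h (show dist y x < δ by rw [Real.dist_eq]; exact lt_of_le_of_lt hy hε.2)
  rw [Real.dist_eq] at this
  exact this.le

lemma contradiction_core (q1 q2 : ℝ → ℝ → ℝ) (g : ℝ → ℝ) (hg0 : ∀ x, 0 ≤ g x)
    (hgc : ∀ x, 0 < x → ContinuousAt g x)
    (hup : ∀ a b M, 0 ≤ a → a ≤ b → 0 ≤ M → (∀ x ∈ Set.Ico a b, g x ≤ M) →
      q1 a b ≤ M * (b - a))
    (hlo : ∀ a b m, 0 ≤ a → a ≤ b → (∀ x ∈ Set.Ico a b, m ≤ g x) → m * (b - a) ≤ q1 a b)
    (h12 : ∀ a b, 1 / 2 ≤ a → a ≤ b → q1 a b = 1 / 2 * (q2 a b + q2 (a - 1 / 2) (b - 1 / 2)))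
    (h12' : ∀ ε, 0 < ε →
      q1 (1 / 2 - ε) (1 / 2) = 1 / 2 * (q2 (1 / 2 - ε) (1 / 2) + q2 (0 - ε) 0))
    (hq20 : ∀ ε, 0 < ε → q2 (0 - ε) 0 = 0) (hq2 : ∀ a b, 0 ≤ q2 a b)
    (hball : ∀ ε, 0 < ε → ε ≤ 1 → ε / 3 ≤ q2 0 ε)
    (hsb : ∀ x ε M, 0 < ε → 1 / 2 ≤ x - ε → 0 ≤ M →
      (∀ n : ℕ, 1 ≤ n → q1 (x - ε - 1 / ((n : ℝ) + 1)) (x - 1 / ((n : ℝ) + 1)) ≤ M) →
      (x - ε) * q1 (x - ε) x ≤ M) : False := by
  -- Step A
  have stepA : ∀ x M, 1 < x → 0 ≤ M → (∀ y ∈ Set.Icc (x - 1 / 2) x, g y ≤ M) → x * g x ≤ M := by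
    intro x M hx hM hgM
    by_contra hcon
    push Not at hcon
    have hgx : 0 < g x := by
      by_contra h
      push Not at h
      have : x * g x ≤ 0 := mul_nonpos_of_nonneg_of_nonpos (by linarith) h
      linarith
    have hlim : Tendsto (fun η : ℝ => (x - η) * (g x - η) - (M + η)) (𝓝[>] 0)
        (𝓝 (x * g x - M)) := by
      have hc : Continuous (fun η : ℝ => (x - η) * (g x - η) - (M + η)) := by fun_prop
      have := (hc.tendsto 0).mono_left (nhdsWithin_le_nhds (s := Set.Ioi 0))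
      simpa using this
    have hev := hlim.eventually (lt_mem_nhds (show 0 < x * g x - M by linarith))
    obtain ⟨η, hη1, hη2, hη3⟩ := (hev.and (Ioo_mem_nhdsGT hgx)).exists
    have hη0 : 0 < η := hη2
    have e1 := eventually_interval (hgc x (by linarith)) hη0
    have e2 := eventually_interval (hgc (x - 1 / 2) (by linarith)) hη0
    obtain ⟨ε, h1, h2, h3, h4⟩ := (e1.and (e2.and (Ioo_mem_nhdsGT
      (show 0 < min η (min (x - 1) (1 / 2)) by
        refine lt_min hη0 (lt_min (by linarith) (by norm_num)))))).exists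
    have hε0 : 0 < ε := h3
    have hεη : ε < η := lt_of_lt_of_le h4 (min_le_left _ _)
    have hε1 : ε < x - 1 := lt_of_lt_of_le h4 ((min_le_right _ _).trans (min_le_left _ _))
    have hε2 : ε < 1 / 2 := lt_of_lt_of_le h4 ((min_le_right _ _).trans (min_le_right _ _))
    have hupp : ∀ n : ℕ, 1 ≤ n →
        q1 (x - ε - 1 / ((n : ℝ) + 1)) (x - 1 / ((n : ℝ) + 1)) ≤ (M + η) * ε := by
      intro n hn
      have hn' : (1 : ℝ) ≤ n := by exact_mod_cast hn
      have hw : 1 / ((n : ℝ) + 1) ≤ 1 / 2 := by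
        apply one_div_le_one_div_of_le (by norm_num); linarith
      have hw0 : 0 < 1 / ((n : ℝ) + 1) := by positivity
      have := hup (x - ε - 1 / ((n : ℝ) + 1)) (x - 1 / ((n : ℝ) + 1)) (M + η) (by linarith)
        (by linarith) (by linarith) (by
          intro y hy
          by_cases hy' : x - 1 / 2 ≤ y
          · have := hgM y ⟨hy', by linarith [hy.2]⟩
            linarith
          · push Not at hy'
            have h5 := h2 y (by rw [abs_le]; constructor <;> linarith [hy.1])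
            have h6 := hgM (x - 1 / 2) ⟨le_rfl, by linarith⟩
            have := (abs_le.1 h5).2
            linarith)
      refine this.trans (le_of_eq ?_)
      ring
    have h5 := hsb x ε ((M + η) * ε) hε0 (by linarith) (by positivity) hupp
    have h6 := hlo (x - ε) x (g x - η) (by linarith) (by linarith) (by
      intro y hy
      have h7 := h1 y (by rw [abs_le]; constructor <;> linarith [hy.1, hy.2])
      have := (abs_le.1 h7).1
      linarith)
    have h7 : (x - ε) * ((g x - η) * ε) ≤ (M + η) * ε := by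
      refine le_trans ?_ h5
      apply mul_le_mul_of_nonneg_left _ (by linarith)
      have : (g x - η) * (x - (x - ε)) = (g x - η) * ε := by ring
      linarith
    have h8 : (x - ε) * (g x - η) ≤ M + η := by
      have : (x - ε) * (g x - η) * ε ≤ (M + η) * ε := by linarith
      exact le_of_mul_le_mul_right this hε0
    have h9 : (x - η) * (g x - η) ≤ (x - ε) * (g x - η) :=
      mul_le_mul_of_nonneg_right (by linarith) (by linarith)
    linarith
  -- Step B
  have hMk : ∀ k : ℕ, ∃ M : ℝ, (∀ x ∈ Set.Icc (1 + (k : ℝ) / 2) (3 / 2 + (k : ℝ) / 2), g x ≤ M) ∧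
      ∃ x ∈ Set.Icc (1 + (k : ℝ) / 2) (3 / 2 + (k : ℝ) / 2), g x = M := by
    intro k
    have hk : (0 : ℝ) ≤ k := Nat.cast_nonneg k
    obtain ⟨x, hx, hmax⟩ := (isCompact_Icc (a := 1 + (k : ℝ) / 2)
      (b := 3 / 2 + (k : ℝ) / 2)).exists_isMaxOn ⟨1 + (k : ℝ) / 2, by constructor <;> linarith⟩
      (f := g) (fun y hy => (hgc y (by linarith [hy.1])).continuousWithinAt)
    exact ⟨g x, fun y hy => hmax hy, x, hx, rfl⟩
  choose M hM1 hM2 using hMk
  have hM0 : ∀ k, 0 ≤ M k := fun k => by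
    obtain ⟨x, _, hx⟩ := hM2 k
    rw [← hx]; exact hg0 x
  have hMs : ∀ k, M (k + 1) ≤ 2 / 3 * M k := by
    intro k
    obtain ⟨x, hx, hgx⟩ := hM2 (k + 1)
    have hk : (0 : ℝ) ≤ k := Nat.cast_nonneg k
    push_cast at hx
    have h1 := stepA x (max (M k) (M (k + 1))) (by linarith [hx.1])
      ((hM0 k).trans (le_max_left _ _)) (by
        intro y hy
        by_cases hy' : y ≤ 3 / 2 + (k : ℝ) / 2
        · exact (hM1 k y ⟨by linarith [hx.1, hy.1], hy'⟩).trans (le_max_left _ _)
        · push Not at hy'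
          refine (hM1 (k + 1) y ⟨?_, ?_⟩).trans (le_max_right _ _)
          · push_cast; linarith
          · push_cast; linarith [hy.2, hx.2])
    rw [hgx] at h1
    have h2 : 3 / 2 * M (k + 1) ≤ max (M k) (M (k + 1)) := by
      refine le_trans ?_ h1
      apply mul_le_mul_of_nonneg_right _ (hM0 _)
      linarith [hx.1]
    rcases le_total (M k) (M (k + 1)) with h | h
    · rw [max_eq_right h] at h2
      have := hM0 (k + 1)
      have := hM0 k
      linarith
    · rw [max_eq_left h] at h2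
      linarith
  have hMp : ∀ k, M k ≤ (2 / 3) ^ k * M 0 := by
    intro k
    induction k with
    | zero => simp
    | succ k ih =>
      calc M (k + 1) ≤ 2 / 3 * M k := hMs k
        _ ≤ 2 / 3 * ((2 / 3) ^ k * M 0) := by gcongr
        _ = _ := by ring
  -- Step C
  set D : ℕ → ℝ → ℝ := fun k ε =>
    q2 ((k : ℝ) / 2) ((k : ℝ) / 2 + ε) - q2 ((k : ℝ) / 2 - ε) ((k : ℝ) / 2) with hD
  have hR : ∀ (k : ℕ) (ε : ℝ), 0 < ε → q1 (((k + 1 : ℕ) : ℝ) / 2) (((k + 1 : ℕ) : ℝ) / 2 + ε) =
      1 / 2 * (q2 (((k + 1 : ℕ) : ℝ) / 2) (((k + 1 : ℕ) : ℝ) / 2 + ε) +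
        q2 ((k : ℝ) / 2) ((k : ℝ) / 2 + ε)) := by
    intro k ε hε
    have hk : (0 : ℝ) ≤ k := Nat.cast_nonneg k
    rw [h12 _ _ (by push_cast; linarith) (by linarith)]
    have e1 : ((k + 1 : ℕ) : ℝ) / 2 - 1 / 2 = (k : ℝ) / 2 := by push_cast; ring
    have e2 : ((k + 1 : ℕ) : ℝ) / 2 + ε - 1 / 2 = (k : ℝ) / 2 + ε := by push_cast; ring
    rw [e1, e2]
  have hL : ∀ (k : ℕ) (ε : ℝ), 0 < ε → ε ≤ 1 / 2 →
      q1 (((k + 1 : ℕ) : ℝ) / 2 - ε) (((k + 1 : ℕ) : ℝ) / 2) =
      1 / 2 * (q2 (((k + 1 : ℕ) : ℝ) / 2 - ε) (((k + 1 : ℕ) : ℝ) / 2) +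
        q2 ((k : ℝ) / 2 - ε) ((k : ℝ) / 2)) := by
    intro k ε hε hε2
    rcases Nat.eq_zero_or_pos k with h0 | h0
    · subst h0
      have := h12' ε hε
      norm_num at this ⊢
      exact this
    · have hk : (1 : ℝ) ≤ k := by exact_mod_cast h0
      rw [h12 _ _ (by push_cast; linarith) (by linarith)]
      have e1 : ((k + 1 : ℕ) : ℝ) / 2 - ε - 1 / 2 = (k : ℝ) / 2 - ε := by push_cast; ring
      have e2 : ((k + 1 : ℕ) : ℝ) / 2 - 1 / 2 = (k : ℝ) / 2 := by push_cast; ring
      rw [e1, e2]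
  have hcont : ∀ (k : ℕ) (η : ℝ), 0 < η → ∀ᶠ ε in 𝓝[>] (0 : ℝ),
      |q1 (((k + 1 : ℕ) : ℝ) / 2) (((k + 1 : ℕ) : ℝ) / 2 + ε) -
        g (((k + 1 : ℕ) : ℝ) / 2) * ε| ≤ η * ε ∧
      |q1 (((k + 1 : ℕ) : ℝ) / 2 - ε) (((k + 1 : ℕ) : ℝ) / 2) -
        g (((k + 1 : ℕ) : ℝ) / 2) * ε| ≤ η * ε := by
    intro k η hη
    set x : ℝ := ((k + 1 : ℕ) : ℝ) / 2 with hx
    have hx2 : 1 / 2 ≤ x := by
      rw [hx]; push_cast
      have hk : (0 : ℝ) ≤ k := Nat.cast_nonneg k
      linarith
    filter_upwards [eventually_interval (hgc x (by linarith)) hη,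
      Ioo_mem_nhdsGT (show (0 : ℝ) < 1 / 2 by norm_num)] with ε h1 h2
    have hε : 0 < ε := h2.1
    have hε2 : ε < 1 / 2 := h2.2
    have hgx := hg0 x
    constructor
    · have u := hup x (x + ε) (g x + η) (by linarith) (by linarith) (by linarith) (by
        intro y hy
        have := (abs_le.1 (h1 y (by rw [abs_le]; constructor <;> linarith [hy.1, hy.2]))).2
        linarith)
      have l := hlo x (x + ε) (g x - η) (by linarith) (by linarith) (by
        intro y hy
        have := (abs_le.1 (h1 y (by rw [abs_le]; constructor <;> linarith [hy.1, hy.2]))).1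
        linarith)
      rw [abs_le]
      constructor <;> nlinarith
    · have u := hup (x - ε) x (g x + η) (by linarith) (by linarith) (by linarith) (by
        intro y hy
        have := (abs_le.1 (h1 y (by rw [abs_le]; constructor <;> linarith [hy.1, hy.2]))).2
        linarith)
      have l := hlo (x - ε) x (g x - η) (by linarith) (by linarith) (by
        intro y hy
        have := (abs_le.1 (h1 y (by rw [abs_le]; constructor <;> linarith [hy.1, hy.2]))).1
        linarith)
      rw [abs_le]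
      constructor <;> nlinarith
  have hjump : ∀ (k : ℕ) (η : ℝ), 0 < η → ∀ᶠ ε in 𝓝[>] (0 : ℝ), (1 / 3 - η) * ε ≤ |D k ε| := by
    intro k
    induction k with
    | zero =>
      intro η hη
      filter_upwards [Ioo_mem_nhdsGT (show (0 : ℝ) < 1 by norm_num)] with ε hε
      have h0 : D 0 ε = q2 0 ε := by
        simp only [hD, Nat.cast_zero, zero_div, zero_add]
        rw [hq20 ε hε.1, sub_zero]
      rw [h0, abs_of_nonneg (hq2 _ _)]
      have := hball ε hε.1 hε.2.le
      nlinarith [hε.1]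
    | succ k ih =>
      intro η hη
      filter_upwards [ih (η / 2) (by positivity), hcont k (η / 8) (by positivity),
        Ioo_mem_nhdsGT (show (0 : ℝ) < 1 / 2 by norm_num)] with ε h1 h2 h3
      have e1 := hR k ε h3.1
      have e2 := hL k ε h3.1 h3.2.le
      obtain ⟨h4, h5⟩ := h2
      have h4' := abs_le.1 h4
      have h5' := abs_le.1 h5
      have hsum : D (k + 1) ε + D k ε =
          2 * (q1 (((k + 1 : ℕ) : ℝ) / 2) (((k + 1 : ℕ) : ℝ) / 2 + ε) -
            q1 (((k + 1 : ℕ) : ℝ) / 2 - ε) (((k + 1 : ℕ) : ℝ) / 2)) := by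
        rw [e1, e2]; simp only [hD]; ring
      have h6 : |D (k + 1) ε + D k ε| ≤ η / 2 * ε := by
        rw [hsum, abs_le]
        constructor <;> linarith
      have h7 : |D k ε| ≤ |D (k + 1) ε + D k ε| + |D (k + 1) ε| := by
        have : D k ε = (D (k + 1) ε + D k ε) - D (k + 1) ε := by ring
        calc |D k ε| = |(D (k + 1) ε + D k ε) - D (k + 1) ε| := by rw [← this]
          _ ≤ _ := abs_sub _ _
      linarith
  have hbig : ∀ k : ℕ, 1 / 8 ≤ g (((k + 1 : ℕ) : ℝ) / 2) := by
    intro k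
    obtain ⟨ε, h1, h2, h3⟩ := ((hjump (k + 1) (1 / 36) (by norm_num)).and
      ((hcont k (1 / 36) (by norm_num)).and
        (Ioo_mem_nhdsGT (show (0 : ℝ) < 1 / 2 by norm_num)))).exists
    have hε := h3.1
    have e1 := hR k ε h3.1
    have e2 := hL k ε h3.1 h3.2.le
    have h4 := (abs_le.1 h2.1).2
    have h5 := (abs_le.1 h2.2).2
    have n1 := hq2 (((k + 1 : ℕ) : ℝ) / 2) (((k + 1 : ℕ) : ℝ) / 2 + ε)
    have n2 := hq2 ((k : ℝ) / 2) ((k : ℝ) / 2 + ε)
    have n3 := hq2 (((k + 1 : ℕ) : ℝ) / 2 - ε) (((k + 1 : ℕ) : ℝ) / 2)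
    have n4 := hq2 ((k : ℝ) / 2 - ε) ((k : ℝ) / 2)
    have h6 : |D (k + 1) ε| ≤ 2 * ((g (((k + 1 : ℕ) : ℝ) / 2) + 1 / 36) * ε) := by
      simp only [hD]
      rw [abs_le]
      constructor <;> nlinarith
    have h7 : (1 / 3 - 1 / 36) * ε ≤ 2 * (g (((k + 1 : ℕ) : ℝ) / 2) + 1 / 36) * ε := by
      linarith
    have h8 := le_of_mul_le_mul_right h7 hε
    linarith
  -- conclusion
  have hlim : Tendsto (fun k : ℕ => ((2 : ℝ) / 3) ^ k * M 0) atTop (𝓝 (0 * M 0)) :=
    (tendsto_pow_atTop_nhds_zero_of_lt_one (by norm_num) (by norm_num)).mul_const _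
  rw [zero_mul] at hlim
  obtain ⟨k, hk⟩ := (hlim.eventually (gt_mem_nhds (show (0 : ℝ) < 1 / 8 by norm_num))).exists
  have h1 := hbig (k + 1)
  have h2 := hM1 k (((k + 1 + 1 : ℕ) : ℝ) / 2) (by push_cast; constructor <;> linarith)
  have h3 := hMp k
  linarith

/-! ### The main theorem -/

/-- Let `I_1, I_2, …` be independent with values in `{0, 1}` and `P(I_n = 1) = 1/n`; here
`I n` stands for `I_{n+1}`. The series `S = ∑ I_n / n` converges almost surely, and every density
of the law of `S` is discontinuous at some point of `(1, ∞)`. -/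
theorem result {Ω : Type*} [MeasurableSpace Ω] (P : Measure Ω) [IsProbabilityMeasure P]
    (I : ℕ → Ω → ℝ) (hmeas : ∀ n, Measurable (I n)) (hval : ∀ n ω, I n ω = 0 ∨ I n ω = 1)
    (hprob : ∀ n : ℕ, P {ω | I n ω = 1} = ENNReal.ofReal (1 / ((n : ℝ) + 1)))
    (hindep : iIndepFun I P) :
    (∀ᵐ ω ∂P, Summable fun n : ℕ => I n ω / ((n : ℝ) + 1)) ∧
    ∀ f : ℝ → ℝ, P.map (fun ω => ∑' n : ℕ, I n ω / ((n : ℝ) + 1)) =
        volume.withDensity (fun x => ENNReal.ofReal (f x)) →
      ∃ x : ℝ, 1 < x ∧ ¬ ContinuousAt f x := by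
  set A : ℕ → Set Ω := fun n => {ω | I n ω = 1} with hAdef
  have hA : ∀ n, MeasurableSet (A n) := fun n => hmeas n (measurableSet_singleton 1)
  have hI : iIndepSet A P := by
    rw [iIndepSet_iff]
    intro s F hF
    refine hindep.iIndep.meas_biInter (S := s) (s := F) ?_
    intro i hi
    have hle : MeasurableSpace.generateFrom {A i} ≤
        MeasurableSpace.comap (I i) inferInstance :=
      MeasurableSpace.generateFrom_le fun t ht => by
        rw [Set.mem_singleton_iff.1 ht]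
        exact ⟨{1}, measurableSet_singleton 1, rfl⟩
    exact hle _ (hF i hi)
  have hP : ∀ n, P (A n) = ENNReal.ofReal (1 / ((n : ℝ) + 1)) := hprob
  -- the terms
  have hterm : ∀ n ω, ENNReal.ofReal (I n ω / ((n : ℝ) + 1)) =
      (A n).indicator (fun _ => w n) ω := by
    intro n ω
    rcases hval n ω with h | h
    · have : ω ∉ A n := by simp [hAdef, h]
      rw [Set.indicator_of_notMem this, h]; simp
    · have : ω ∈ A n := by simp [hAdef, h]
      rw [Set.indicator_of_mem this, h, w]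
  have hnn : ∀ n ω, 0 ≤ I n ω / ((n : ℝ) + 1) := by
    intro n ω
    rcases hval n ω with h | h <;> rw [h] <;> positivity
  -- almost sure facts
  have hfin : ∀ᵐ ω ∂P, T A (Set.Ici 1) ω < ∞ := by
    refine ae_lt_top (measurable_T hA _) ?_
    exact ne_top_of_le_ne_top ENNReal.ofReal_ne_top (mean_tail hA hP 1 le_rfl)
  have hA0 : ∀ᵐ ω ∂P, ω ∈ A 0 := by
    rw [ae_iff]
    have h0 : {ω | ω ∉ A 0} = (A 0)ᶜ := rfl
    rw [h0, prob_compl hA hP]
    simp
  have hall : ∀ ω, T A Set.univ ω = ∑' n, ENNReal.ofReal (I n ω / ((n : ℝ) + 1)) := by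
    intro ω
    unfold T
    refine tsum_congr fun n => ?_
    rw [Set.indicator_univ, hterm]
  have hset : (Set.univ : Set ℕ) \ {0} = Set.Ici 1 := by
    ext x
    simp only [Set.mem_sdiff, Set.mem_univ, Set.mem_singleton_iff, Set.mem_Ici, true_and]
    omega
  have hsplit : ∀ᵐ ω ∂P, T A Set.univ ω = 1 + T A (Set.Ici 1) ω := by
    filter_upwards [hA0] with ω hω
    rw [T_split A (Set.mem_univ 0), Set.indicator_of_mem hω, hset]
    congr 1
    rw [w]; simp
  have hsumm : ∀ᵐ ω ∂P, Summable fun n : ℕ => I n ω / ((n : ℝ) + 1) := by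
    filter_upwards [hfin, hsplit] with ω h1 h2
    have h3 : ∑' n, ENNReal.ofReal (I n ω / ((n : ℝ) + 1)) ≠ ∞ := by
      rw [← hall, h2]
      exact ENNReal.add_ne_top.2 ⟨ENNReal.one_ne_top, h1.ne⟩
    have h4 := ENNReal.summable_toReal h3
    refine h4.congr fun n => ?_
    rw [ENNReal.toReal_ofReal (hnn n ω)]
  refine ⟨hsumm, fun f hf => ?_⟩
  by_contra hcon
  push Not at hcon
  have hSval : ∀ᵐ ω ∂P, ∑' n : ℕ, I n ω / ((n : ℝ) + 1) = 1 + (T A (Set.Ici 1) ω).toReal := by
    filter_upwards [hfin, hsplit, hsumm] with ω h1 h2 h3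
    have h4 : ENNReal.ofReal (∑' n : ℕ, I n ω / ((n : ℝ) + 1)) = 1 + T A (Set.Ici 1) ω := by
      rw [ENNReal.ofReal_tsum_of_nonneg (fun n => hnn n ω) h3, ← hall, h2]
    have h5 := congrArg ENNReal.toReal h4
    rw [ENNReal.toReal_ofReal (tsum_nonneg fun n => hnn n ω),
      ENNReal.toReal_add ENNReal.one_ne_top h1.ne, ENNReal.toReal_one] at h5
    exact h5
  have hSmeas : AEMeasurable (fun ω => ∑' n : ℕ, I n ω / ((n : ℝ) + 1)) P := by
    refine ⟨fun ω => 1 + (T A (Set.Ici 1) ω).toReal,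
      ((measurable_T hA _).ennreal_toReal).const_add 1, hSval⟩
  -- the law on intervals
  have hlaw : ∀ a b : ℝ, 0 ≤ a → a ≤ b →
      P {ω | T A (Set.Ici 1) ω ∈ Set.Ico (ENNReal.ofReal a) (ENNReal.ofReal b)} =
      ∫⁻ x in Set.Ico a b, ENNReal.ofReal (f (1 + x)) := by
    intro a b ha hab
    have h1 : P.map (fun ω => ∑' n : ℕ, I n ω / ((n : ℝ) + 1)) (Set.Ico (1 + a) (1 + b)) =
        P {ω | T A (Set.Ici 1) ω ∈ Set.Ico (ENNReal.ofReal a) (ENNReal.ofReal b)} := by
      rw [Measure.map_apply_of_aemeasurable hSmeas measurableSet_Ico]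
      apply measure_congr
      filter_upwards [hSval, hfin] with ω h2 h3
      apply propext
      change (∑' n : ℕ, I n ω / ((n : ℝ) + 1)) ∈ Set.Ico (1 + a) (1 + b) ↔
        T A (Set.Ici 1) ω ∈ Set.Ico (ENNReal.ofReal a) (ENNReal.ofReal b)
      rw [h2, Set.mem_Ico, Set.mem_Ico, add_le_add_iff_left, add_lt_add_iff_left,
        ENNReal.ofReal_le_iff_le_toReal h3.ne, ENNReal.lt_ofReal_iff_toReal_lt h3.ne]
    rw [← h1, hf, withDensity_apply _ measurableSet_Ico]
    have h4 := (measurePreserving_add_left (volume : Measure ℝ) 1).setLIntegral_comp_preimage_emb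
      (measurableEmbedding_addLeft 1) (fun x => ENNReal.ofReal (f x)) (Set.Ico (1 + a) (1 + b))
    rw [← h4]
    congr 2
    ext x
    simp
  set g : ℝ → ℝ := fun x => max (f (1 + x)) 0 with hg
  have hofg : ∀ x, ENNReal.ofReal (f (1 + x)) = ENNReal.ofReal (g x) := by
    intro x
    simp only [hg]
    rw [ENNReal.ofReal_max]
    simp
  refine contradiction_core (Q P A (Set.Ici 1)) (Q P A (Set.Ici 2)) g
    (fun x => le_max_right _ _) ?_ ?_ ?_ (fun a b ha hab => Q_two hA hI hP a b ha hab)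
    (fun ε hε => Q_two' hA hI hP ε hε) ?_ (fun a b => Q_nonneg _ a b)
    (fun ε hε hε1 => small_ball hA hI hP ε hε hε1)
    (fun x ε M hε hx hM h => Q_size_bias hA hI hP x ε M hε hx hM h)
  · intro x hx
    have h1 : ContinuousAt f (1 + x) := hcon (1 + x) (by linarith)
    have h2 : ContinuousAt (fun y : ℝ => f (1 + y)) x :=
      ContinuousAt.comp (f := fun y : ℝ => 1 + y) (g := f) h1 (by fun_prop)
    exact h2.max continuousAt_const
  · intro a b M ha hab hM h
    unfold Q
    rw [hlaw a b ha hab]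
    have h1 : ∫⁻ x in Set.Ico a b, ENNReal.ofReal (f (1 + x)) ≤ ENNReal.ofReal (M * (b - a)) := by
      calc ∫⁻ x in Set.Ico a b, ENNReal.ofReal (f (1 + x))
          ≤ ∫⁻ _ in Set.Ico a b, ENNReal.ofReal M := by
            refine setLIntegral_mono' measurableSet_Ico fun x hx => ?_
            rw [hofg]
            exact ENNReal.ofReal_le_ofReal (h x hx)
        _ = ENNReal.ofReal (M * (b - a)) := by
            rw [setLIntegral_const, Real.volume_Ico, ← ENNReal.ofReal_mul hM]
    have h2 := ENNReal.toReal_mono ENNReal.ofReal_ne_top h1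
    rwa [ENNReal.toReal_ofReal (mul_nonneg hM (by linarith))] at h2
  · intro a b m ha hab h
    rcases le_or_gt m 0 with hm | hm
    · exact (mul_nonpos_of_nonpos_of_nonneg hm (by linarith)).trans (Q_nonneg _ _ _)
    · unfold Q
      have h1 : ENNReal.ofReal (m * (b - a)) ≤
          P {ω | T A (Set.Ici 1) ω ∈ Set.Ico (ENNReal.ofReal a) (ENNReal.ofReal b)} := by
        rw [hlaw a b ha hab]
        calc ENNReal.ofReal (m * (b - a)) = ∫⁻ _ in Set.Ico a b, ENNReal.ofReal m := by
              rw [setLIntegral_const, Real.volume_Ico, ← ENNReal.ofReal_mul hm.le]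
          _ ≤ _ := by
              refine setLIntegral_mono' measurableSet_Ico fun x hx => ?_
              rw [hofg]
              exact ENNReal.ofReal_le_ofReal (h x hx)
      have h2 := ENNReal.toReal_mono (measure_ne_top _ _) h1
      rwa [ENNReal.toReal_ofReal (mul_nonneg hm.le (by linarith))] at h2
  · intro ε hε
    unfold Q
    have : {ω | T A (Set.Ici 2) ω ∈ Set.Ico (ENNReal.ofReal (0 - ε)) (ENNReal.ofReal 0)} = ∅ := by
      ext ω; simp
    rw [this]; simp

end Pool.Agent.Results.MP_37d573_pr.NoContinuousDensity
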